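import Pool.Agent.K3h46.AS.Stm2

/-!
# Counting classes modulo `a ^ p - a`
-/

set_option autoImplicit false

namespace Pool.Agent.K3h95.AS

open Polynomial

theorem t_CNT : Pool.Agent.K3h46.AS.S_CNT := by
  intro p hp F _ _ _ S k hyp
  classical
  have := Fintype.ofFinite F
  set wp : F →+ F := (frobenius F p).toAddMonoidHom - AddMonoidHom.id F with hwpdef
  have hwp : ∀ a, wp a = a ^ p - a := fun a => rfl
  set H : AddSubgroup F := wp.range with hH
  have hHpos : 0 < Nat.card H := Nat.card_pos
  have h1 : Nat.card wp.ker * Nat.card H = Nat.card F := by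
    have h2 := wp.ker.card_mul_index
    rwa [AddSubgroup.index_ker] at h2
  have hker : Nat.card wp.ker ≤ p := by
    have hne : (X ^ p - X : F[X]) ≠ 0 := FiniteField.X_pow_card_sub_X_ne_zero F hp.out.one_lt
    have hdeg : (X ^ p - X : F[X]).natDegree = p :=
      FiniteField.X_pow_card_sub_X_natDegree_eq F hp.out.one_lt
    have hmem : ∀ a : wp.ker, (a : F) ∈ (X ^ p - X : F[X]).roots.toFinset := by
      intro a
      rw [Multiset.mem_toFinset, mem_roots hne, IsRoot.def, eval_sub, eval_pow, eval_X, ← hwp]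
      exact a.2
    have h2 : Nat.card wp.ker ≤ Nat.card {x // x ∈ (X ^ p - X : F[X]).roots.toFinset} :=
      Nat.card_le_card_of_injective
        (fun a => (⟨(a : F), hmem a⟩ : {x // x ∈ (X ^ p - X : F[X]).roots.toFinset}))
        fun a b hab => Subtype.ext (Subtype.mk.inj hab)
    rw [Nat.card_eq_fintype_card, Nat.card_eq_fintype_card, Fintype.card_coe] at h2
    rw [Nat.card_eq_fintype_card]
    exact h2.trans ((Multiset.toFinset_card_le _).trans ((card_roots' _).trans hdeg.le))
  obtain ⟨e, he⟩ : ∃ e, ∀ a : F, a ^ p - a ≠ e := by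
    by_contra hcon
    push Not at hcon
    have hs : Function.Surjective wp := fun e => by
      obtain ⟨a, ha⟩ := hcon e
      exact ⟨a, ha⟩
    have hi := Finite.injective_iff_surjective.2 hs
    have h2 : (0 : F) = 1 := hi (by rw [hwp, hwp, one_pow, sub_self, zero_pow hp.out.ne_zero, sub_zero])
    exact zero_ne_one h2
  have heH : e ∉ H := by
    rintro ⟨a, ha⟩
    exact he a ha
  let f : ZMod p → F ⧸ H := fun t => QuotientAddGroup.mk ((t.val : F) * e)
  have hinj : Function.Injective f := by
    intro t t' htt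
    by_contra hne
    have h2 : -((t.val : F) * e) + (t'.val : F) * e ∈ H := QuotientAddGroup.eq.1 htt
    have hc : (t' - t) ≠ 0 := sub_ne_zero.2 (Ne.symm hne)
    have h3 : (((t' - t)⁻¹ * (t' - t) : ZMod p)) = 1 := inv_mul_cancel₀ hc
    have h4 := congrArg (ZMod.castHom (dvd_refl p) F) h3
    rw [map_one, map_mul, map_sub] at h4
    have h5 : ∀ s : ZMod p, (ZMod.castHom (dvd_refl p) F) s = (s.val : F) := fun s => by
      conv_lhs => rw [← ZMod.natCast_zmod_val s]
      rw [map_natCast]
    rw [h5, h5, h5] at h4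
    apply heH
    have h6 : e = ((t' - t)⁻¹.val) • (-((t.val : F) * e) + (t'.val : F) * e) := by
      rw [nsmul_eq_mul]
      calc e = 1 * e := (one_mul e).symm
        _ = (((t' - t)⁻¹.val : F) * ((t'.val : F) - (t.val : F))) * e := by rw [h4]
        _ = _ := by ring
    rw [h6]
    exact H.nsmul_mem h2 _
  have h2 : Nat.card (ZMod p) ≤ Nat.card (F ⧸ H) := Nat.card_le_card_of_injective f hinj
  rw [Nat.card_zmod] at h2
  have h3 : Nat.card H * Nat.card (F ⧸ H) = Nat.card F := H.card_mul_index
  have h4 : Nat.card (F ⧸ H) = p := by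
    have h5 : Nat.card H * Nat.card (F ⧸ H) = Nat.card H * Nat.card wp.ker := by
      rw [h3, ← h1, mul_comm]
    have h6 := Nat.eq_of_mul_eq_mul_left hHpos h5
    omega
  have hbij : Function.Bijective f :=
    (Nat.bijective_iff_injective_and_card f).2 ⟨hinj, by rw [Nat.card_zmod, h4]⟩
  set T : Finset (ZMod p) := Finset.univ.filter (fun t => ∃ a : F, (t.val : F) * e + (a ^ p - a) ∈ S)
    with hT
  have hTk : T.card ≤ k := hyp e he T (fun t ht => (Finset.mem_filter.1 ht).2)
  have hsub : S ⊆ ((T.biUnion fun t => (Finset.univ : Finset H).image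
      (fun h : H => (t.val : F) * e + (h : F)) : Finset F) : Set F) := by
    intro x hx
    obtain ⟨t, ht⟩ := hbij.2 (QuotientAddGroup.mk x)
    obtain ⟨a, ha⟩ := QuotientAddGroup.eq.1 ht
    have hxa : (t.val : F) * e + wp a = x := by rw [ha]; ring
    rw [Finset.mem_coe, Finset.mem_biUnion]
    refine ⟨t, ?_, ?_⟩
    · rw [hT, Finset.mem_filter]
      refine ⟨Finset.mem_univ _, a, ?_⟩
      rw [← hwp, hxa]
      exact hx
    · rw [Finset.mem_image]
      exact ⟨⟨wp a, a, rfl⟩, Finset.mem_univ _, hxa⟩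
  have hS : S.ncard ≤ T.card * Nat.card H := by
    refine (Set.ncard_le_ncard hsub (Finset.finite_toSet _)).trans ?_
    rw [Set.ncard_coe_finset]
    refine Finset.card_biUnion_le_card_mul _ _ _ fun t _ => ?_
    refine Finset.card_image_le.trans ?_
    rw [Finset.card_univ, Nat.card_eq_fintype_card]
  calc p * S.ncard ≤ p * (T.card * Nat.card H) := Nat.mul_le_mul_left _ hS
    _ = T.card * (Nat.card H * p) := by ring
    _ = T.card * Nat.card F := by rw [← h3, h4]
    _ ≤ k * Nat.card F := Nat.mul_le_mul_right _ hTk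

end Pool.Agent.K3h95.AS
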