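import Pool.Agent.K3h46.AS.Stm2

/-!
# The field of a root of an irreducible polynomial, and a root of `X ^ p - X - e`
-/

set_option autoImplicit false

namespace Pool.Agent.K3h95.AS

open Polynomial

theorem t_FLD : Pool.Agent.K3h46.AS.S_FLD := by
  intro p hp F _ _ _ e ψ he hψ hdeg
  have : Fact (Irreducible ψ) := ⟨hψ⟩
  have : CharP (AdjoinRoot ψ) p := charP_of_injective_algebraMap (algebraMap F (AdjoinRoot ψ)).injective p
  have : CharP (AlgebraicClosure (AdjoinRoot ψ)) p :=
    charP_of_injective_algebraMap
      (algebraMap (AdjoinRoot ψ) (AlgebraicClosure (AdjoinRoot ψ))).injective p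
  have : ExpChar F p := ExpChar.prime hp.out
  have : PerfectField F := PerfectRing.toPerfectField F p
  have : Module.Finite F (AdjoinRoot ψ) := (AdjoinRoot.powerBasis hψ.ne_zero).finite
  set i := algebraMap F (AdjoinRoot ψ) with hi
  set j := algebraMap (AdjoinRoot ψ) (AlgebraicClosure (AdjoinRoot ψ)) with hj
  obtain ⟨θ, hθ⟩ : ∃ θ : AlgebraicClosure (AdjoinRoot ψ), θ ^ p - θ = j (i e) := by
    have h1 : (X ^ p - X - C (j (i e)) : (AlgebraicClosure (AdjoinRoot ψ))[X]).degree ≠ 0 := by
      have h2 : (X ^ p - X - C (j (i e)) : (AlgebraicClosure (AdjoinRoot ψ))[X]).natDegree = p := by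
        compute_degree!
        · have := hp.out.one_lt
          have h3 : (1 : ℕ) ≠ p := by omega
          have h4 : p ≠ 0 := by omega
          simp [h3, h4]
        · exact hp.out.one_lt.le
      intro h3
      have h4 := natDegree_eq_of_degree_eq_some h3
      rw [h2] at h4
      exact hp.out.ne_zero h4
    obtain ⟨θ, hθ⟩ := IsAlgClosed.exists_root _ h1
    refine ⟨θ, ?_⟩
    have := hθ
    simp only [IsRoot.def, eval_sub, eval_pow, eval_X, eval_C] at this
    exact sub_eq_zero.mp this
  refine ⟨AdjoinRoot ψ, AlgebraicClosure (AdjoinRoot ψ), inferInstance, inferInstance,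
    inferInstance, inferInstance, i, j, AdjoinRoot.root ψ, θ, ?_, hθ, ?_⟩
  · rw [hi]
    exact AdjoinRoot.isRoot_root ψ
  · intro z hz
    subst hz
    have h1 : z ^ p - z = i e := by
      apply j.injective
      rw [map_sub, map_pow, hθ]
    have h2 : Algebra.trace F (AdjoinRoot ψ) (z ^ p) = (Algebra.trace F (AdjoinRoot ψ) z) ^ p := by
      apply (algebraMap F (AlgebraicClosure F)).injective
      have : CharP (AlgebraicClosure F) p :=
        charP_of_injective_algebraMap (algebraMap F (AlgebraicClosure F)).injective p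
      rw [trace_eq_sum_embeddings (AlgebraicClosure F),
        map_pow (algebraMap F (AlgebraicClosure F)),
        trace_eq_sum_embeddings (AlgebraicClosure F), sum_pow_char]
      refine Finset.sum_congr rfl fun σ _ => ?_
      rw [map_pow]
    have h3 := congrArg (Algebra.trace F (AdjoinRoot ψ)) h1
    rw [map_sub, h2, hi, Algebra.trace_algebraMap, (AdjoinRoot.powerBasis hψ.ne_zero).finrank,
      AdjoinRoot.powerBasis_dim, nsmul_eq_mul] at h3
    set T := Algebra.trace F (AdjoinRoot ψ) z
    set n := ψ.natDegree with hn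
    have hn0 : 0 < n := hψ.natDegree_pos
    have hnF : (n : F) ≠ 0 := by
      intro h0
      rw [CharP.cast_eq_zero_iff F p] at h0
      exact absurd (Nat.le_of_dvd hn0 h0) (by omega)
    have hnp : (n : F) ^ p = n := by
      have := map_natCast (frobenius F p) n
      rwa [frobenius_def] at this
    apply he (T / n)
    rw [div_pow, hnp, ← sub_div, h3, mul_comm, mul_div_assoc, div_self hnF, mul_one]

end Pool.Agent.K3h95.AS
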